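import Pool.Agent.Q78.BB.C
import Pool.Agent.Q223.BB.K1
import Pool.Agent.Q190.BB.K2
import Pool.Agent.Q190.BB.K3
import Pool.Agent.Q149.BB.K4
import Pool.Agent.Q129.BB.K5
import Pool.Agent.Q149.BB.K6
import Pool.Agent.Q79.BB.K7
import Pool.Agent.Q53.BB.K8
import Pool.Agent.Q53.BB.O1
import Pool.Agent.Q53.BB.O2
import Pool.Agent.Q151.BB.D3

/-! Project BB: assembly -/

set_option autoImplicit false

open MeasureTheory Set Filter Topology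
open scoped BigOperators ENNReal SchwartzMap

namespace Q78.BB.Fin

open Pool.Agent.Y282.RB (Tn)
open Pool.Agent.Q276.BA (cc pp qq BM Op Cls eO)
open Pool.Agent.Q78.BB

theorem E_le {k : ℕ} (hk : 1 ≤ k) : eO k ≤ Real.exp 2 * k := by
  obtain ⟨j, rfl⟩ : ∃ j, k = j + 1 := ⟨k - 1, by omega⟩
  have := eO_le j
  push_cast
  exact this

theorem ker (b N : ℕ) (hb : 1 ≤ b) (hN : 1 ≤ N) : 1 + ∫ v in (0 : ℝ)..1, |qq b N v| / v ≤ eO N :=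
  kernel Pool.Agent.Q223.BB.K1.k1 Pool.Agent.Q190.BB.k2 Pool.Agent.Q190.BB.K3.k3 Pool.Agent.Q149.BB.k4
    Pool.Agent.Q129.BB.k5 Pool.Agent.Q149.BB.k6 Pool.Agent.Q79.BB.k7 Pool.Agent.Q53.BB.K8.k8 b N hb hN

theorem modes (n : ℕ) (hn : 1 ≤ n) (m : ℤ) (hm : (n : ℤ) < m) (h2 : m ≠ 2 * n) (f : 𝓢(ℂ, ℂ)) (hf : Cls m f) :
    (∀ p : ℝ, 2 ≤ p → ∀ R : ℝ, eLpNorm (Tn n f) (ENNReal.ofReal p) (volume.restrict {z : ℂ | R < ‖z‖}) ≤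
      ENNReal.ofReal (eO (min n (m - n).toNat) ^ (1 - 2 / p)) *
        eLpNorm f (ENNReal.ofReal p) (volume.restrict {z : ℂ | R < ‖z‖})) ∧
    ∀ (z : ℂ) (B : ℝ), (∀ w : ℂ, ‖z‖ ≤ ‖w‖ → ‖f w‖ ≤ B) → ‖Tn n f z‖ ≤ eO (min n (m - n).toNat) * B :=
  Pool.Agent.Q78.BB.modes ker Pool.Agent.Q53.BB.O.o1 Pool.Agent.Q53.BB.O2.o2 Pool.Agent.Q151.BB.d3 n hn m hm h2 f hf

end Q78.BB.Fin
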