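import Pool.Agent.Q78.BB.Stm
import Pool.Agent.Q265.BA.G
import Pool.Agent.Q276.BA.Fin

/-! Project BB: assembly, first part -/

set_option autoImplicit false

open MeasureTheory Set Filter Topology
open scoped BigOperators ENNReal SchwartzMap

namespace Pool.Agent.Q78.BB

open Pool.Agent.Y282.RB (Tn)
open Pool.Agent.Q276.BA (cc pp qq BM Op Cls eO)

lemma cont_pp (b n : ℕ) : Continuous (pp b n) := Pool.Agent.Q276.BA.D2.cont_pp b n

lemma cont_qq (b n : ℕ) : Continuous (qq b n) := by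
  unfold qq
  exact (Real.continuous_sqrt.pow b).mul (cont_pp b n)

lemma qq_le (b N : ℕ) (hb : 1 ≤ b) : ∃ c : ℝ, 0 ≤ c ∧ ∀ v, 0 ≤ v → v ≤ 1 → |qq b N v| ≤ c * Real.sqrt v := by
  obtain ⟨C, hC⟩ := isCompact_Icc.exists_bound_of_continuousOn (s := Icc (0 : ℝ) 1) (cont_pp b N).continuousOn
  refine ⟨|C|, abs_nonneg _, fun v h0 h1 => ?_⟩
  unfold qq
  rw [abs_mul, abs_of_nonneg (by positivity), mul_comm]
  have h2 : |pp b N v| ≤ |C| := (hC v ⟨h0, h1⟩).trans (le_abs_self C)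
  have h3 : Real.sqrt v ≤ 1 := by
    exact (Real.sqrt_le_sqrt h1).trans_eq Real.sqrt_one
  have h4 : (Real.sqrt v) ^ b ≤ Real.sqrt v := by
    calc (Real.sqrt v) ^ b ≤ (Real.sqrt v) ^ 1 := pow_le_pow_of_le_one (Real.sqrt_nonneg v) h3 hb
      _ = Real.sqrt v := pow_one _
  exact mul_le_mul h2 h4 (by positivity) (abs_nonneg _)

lemma sq_int : IntervalIntegrable (fun v : ℝ => (Real.sqrt v)⁻¹) volume 0 1 := by
  have h := (intervalIntegral.intervalIntegrable_rpow' (a := 0) (b := 1) (r := -(1 / 2)) (by norm_num))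
  refine h.congr_ae ?_
  rw [uIoc_of_le zero_le_one]
  filter_upwards [ae_restrict_mem measurableSet_Ioc] with v hv
  rw [Real.rpow_neg hv.1.le, Real.sqrt_eq_rpow]

lemma int_q (q : ℝ → ℝ) (hq : Continuous q) (c : ℝ) (hc : ∀ v, 0 ≤ v → v ≤ 1 → |q v| ≤ c * Real.sqrt v) :
    IntervalIntegrable (fun v : ℝ => |q v| / v) volume 0 1 := by
  refine (sq_int.const_mul c).mono_fun' ?_ ?_
  · exact (hq.abs.measurable.div measurable_id).aestronglyMeasurable
  · rw [uIoc_of_le zero_le_one]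
    filter_upwards [ae_restrict_mem measurableSet_Ioc] with v hv
    have h1 := hc v hv.1.le hv.2
    have h2 : 0 < Real.sqrt v := Real.sqrt_pos.2 hv.1
    rw [Real.norm_of_nonneg (div_nonneg (abs_nonneg _) hv.1.le), div_le_iff₀ hv.1]
    calc |q v| ≤ c * Real.sqrt v := h1
      _ = c * (Real.sqrt v)⁻¹ * (Real.sqrt v * Real.sqrt v) := by field_simp
      _ = c * (Real.sqrt v)⁻¹ * v := by rw [Real.mul_self_sqrt hv.1.le]

/-- the bound of the kernel for `N ≥ 3` -/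
theorem split_bound (b N : ℕ) (hb : 1 ≤ b) : ∫ v in (0 : ℝ)..1, |qq b N v| / v =
    (∫ v in (0 : ℝ)..1, (1 - v) * (|qq b N v| / v)) + ∫ v in (0 : ℝ)..1, |qq b N v| := by
  obtain ⟨c, hc0, hc⟩ := qq_le b N hb
  have h1 := int_q _ (cont_qq b N) c hc
  have h2 : IntervalIntegrable (fun v : ℝ => |qq b N v|) volume 0 1 := (cont_qq b N).abs.intervalIntegrable _ _
  have h3 : IntervalIntegrable (fun v : ℝ => (1 - v) * (|qq b N v| / v)) volume 0 1 :=
    h1.continuousOn_mul (by fun_prop)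
  rw [← intervalIntegral.integral_add h3 h2]
  refine intervalIntegral.integral_congr_ae ?_
  rw [uIoc_of_le zero_le_one]
  refine Eventually.of_forall fun v hv => ?_
  have hv0 : v ≠ 0 := hv.1.ne'
  field_simp
  ring

lemma Ep_nonneg (b N : ℕ) : 0 ≤ Ep b N := by
  unfold Ep
  refine mul_nonneg (by norm_num) (intervalIntegral.integral_nonneg zero_le_one fun r hr => ?_)
  have h1 : r ^ 4 ≤ 1 := pow_le_one₀ hr.1 hr.2
  have h2 : 0 ≤ 1 - r ^ 4 := by linarith
  have h3 := hr.1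
  positivity

lemma Em_nonneg (b N : ℕ) : 0 ≤ Em b N := by
  unfold Em
  refine mul_nonneg (by norm_num) (intervalIntegral.integral_nonneg zero_le_one fun r hr => ?_)
  have h1 : r ^ 4 ≤ 1 := pow_le_one₀ hr.1 hr.2
  have h2 : 0 ≤ 1 - r ^ 4 := by linarith
  have h3 := hr.1
  positivity

/-- the bound of the kernel -/
theorem kernel (k1 : S_K1) (k2 : S_K2) (k3 : S_K3) (k4 : S_K4) (k5 : S_K5) (k6 : S_K6) (k7 : S_K7) (k8 : S_K8)
    (b N : ℕ) (hb : 1 ≤ b) (hN : 1 ≤ N) : 1 + ∫ v in (0 : ℝ)..1, |qq b N v| / v ≤ eO N := by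
  rcases le_or_gt N 2 with h2 | h2
  · exact k8 b N hb hN h2
  have hE1 := k1 b N hb hN
  have hE2 := k2 b N hb hN
  have hm : ∀ X : ℝ, SS N + N / 4 ≤ X →
      1 + ∫ v in (0 : ℝ)..1, |qq b N v| / v ≤ 1 + Real.sqrt (4 * Real.pi * Real.sqrt (X *
        (N * (N + 1) * Real.sqrt (2 * N + 1)))) + 2 * Real.sqrt (N * (1 + Real.log (2 * N + 1))) := by
    intro X hX
    rw [split_bound b N hb]
    have h4 := k4 b N hb hN
    have h5 := k5 b N hb hN
    have h6 : Ep b N * Em b N ≤ X * (N * (N + 1) * Real.sqrt (2 * N + 1)) :=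
      mul_le_mul (hE1.trans hX) hE2 (Em_nonneg b N) ((Ep_nonneg b N).trans (hE1.trans hX))
    have h7 : Real.sqrt (4 * Real.pi * Real.sqrt (Ep b N * Em b N)) ≤ Real.sqrt (4 * Real.pi * Real.sqrt (X *
        (N * (N + 1) * Real.sqrt (2 * N + 1)))) := by
      refine Real.sqrt_le_sqrt (mul_le_mul_of_nonneg_left (Real.sqrt_le_sqrt h6) ?_)
      have := Real.pi_pos
      positivity
    linarith
  rcases le_or_gt N 9 with h9 | h9
  · exact (hm _ le_rfl).trans (k6 N (by omega) h9)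
  · refine (hm _ ?_).trans (k7 N (by omega))
    have := k3 N hN
    linarith

/-- the bound outside of discs -/
theorem ext_bound (q : ℝ → ℝ) (M : ℝ) (hM : 1 ≤ M) (hop : Op (AO q) M) (p : ℝ) (hp : 2 ≤ p) (f : ℂ → ℂ)
    (hf : BM f) (R : ℝ) :
    eLpNorm (AO q f) (ENNReal.ofReal p) (volume.restrict {z : ℂ | R < ‖z‖}) ≤
      ENNReal.ofReal (M ^ (1 - 2 / p)) * eLpNorm f (ENNReal.ofReal p) (volume.restrict {z : ℂ | R < ‖z‖}) := by
  have hS : MeasurableSet {z : ℂ | R < ‖z‖} := measurableSet_lt measurable_const measurable_norm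
  obtain ⟨g, hg⟩ : ∃ g : ℂ → ℂ, g = ({z : ℂ | R < ‖z‖}).indicator f := ⟨_, rfl⟩
  have hgB : BM g := by
    obtain ⟨hm, C, hC⟩ := hf
    rw [hg]
    refine ⟨hm.indicator hS, |C|, fun z => ?_⟩
    refine (norm_indicator_le_norm_self f z).trans ((hC z).trans (le_abs_self C))
  have he : ∀ z ∈ {z : ℂ | R < ‖z‖}, AO q f z = AO q g z := by
    intro z hz
    have hz' : R < ‖z‖ := hz
    unfold AO
    have h1 : g z = f z := by rw [hg, indicator_of_mem hz]
    rw [h1]
    congr 1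
    refine intervalIntegral.integral_congr_ae ?_
    rw [uIoc_of_le zero_le_one]
    refine Eventually.of_forall fun v hv => ?_
    have h2 : ((((Real.sqrt v)⁻¹ : ℝ) : ℂ) * z) ∈ {z : ℂ | R < ‖z‖} := by
      have h3 : 0 < Real.sqrt v := Real.sqrt_pos.2 hv.1
      have h4 : Real.sqrt v ≤ 1 := by
        exact (Real.sqrt_le_sqrt hv.2).trans_eq Real.sqrt_one
      have h5 : 1 ≤ (Real.sqrt v)⁻¹ := (one_le_inv₀ h3).2 h4
      show R < ‖(((Real.sqrt v)⁻¹ : ℝ) : ℂ) * z‖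
      rw [norm_mul, Complex.norm_real, Real.norm_of_nonneg (by positivity)]
      nlinarith [norm_nonneg z]
    rw [hg, indicator_of_mem h2]
  calc eLpNorm (AO q f) (ENNReal.ofReal p) (volume.restrict {z : ℂ | R < ‖z‖})
      = eLpNorm (AO q g) (ENNReal.ofReal p) (volume.restrict {z : ℂ | R < ‖z‖}) := by
        refine eLpNorm_congr_ae ?_
        filter_upwards [ae_restrict_mem hS] with z hz
        exact he z hz
    _ ≤ eLpNorm (AO q g) (ENNReal.ofReal p) (volume : Measure ℂ) :=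
        eLpNorm_mono_measure _ Measure.restrict_le_self
    _ ≤ ENNReal.ofReal (M ^ (1 - 2 / p)) * eLpNorm g (ENNReal.ofReal p) (volume : Measure ℂ) :=
        Pool.Agent.Q265.BA.g (AO q) M hM hop p hp g hgB
    _ = _ := by rw [hg, eLpNorm_indicator_eq_eLpNorm_restrict hS]

end Pool.Agent.Q78.BB
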