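import Pool.Agent.Q78.BB.A
import Pool.Agent.Q78.AF.A
import Pool.Agent.Q182.BA.Num
import Pool.Agent.Q190.BA.Ker

/-! Project BB: assembly, second part -/

set_option autoImplicit false

open MeasureTheory Set Filter Topology
open scoped BigOperators ENNReal SchwartzMap

namespace Pool.Agent.Q78.BB

open Pool.Agent.Y282.RB (Tn)
open Pool.Agent.Q276.BA (cc pp qq BM Op Cls eO)

lemma eO_succ (n : ℕ) : eO (n + 1) = eO n * Real.exp (2 / (2 * (n : ℝ) + 1)) := Pool.Agent.Q182.BA.eO_succ n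

lemma eO_zero : eO 0 = 1 := by
  unfold eO
  simp

lemma eO_pos (n : ℕ) : 0 < eO n := Real.exp_pos _

lemma eO_le_succ (n : ℕ) : eO n ≤ eO (n + 1) := by
  rw [eO_succ]
  have h1 : 1 ≤ Real.exp (2 / (2 * (n : ℝ) + 1)) := Real.one_le_exp (by positivity)
  exact le_mul_of_one_le_right (eO_pos n).le h1

lemma eO_mono : Monotone eO := monotone_nat_of_le_succ eO_le_succ

lemma one_le_eO (n : ℕ) : 1 ≤ eO n := by
  have := eO_mono (Nat.zero_le n)
  rwa [eO_zero] at this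

lemma eO_le (n : ℕ) : eO (n + 1) ≤ Real.exp 2 * (n + 1) := by
  induction n with
  | zero =>
    rw [eO_succ, eO_zero]
    norm_num
  | succ n ih =>
    rw [eO_succ]
    have hn : (0 : ℝ) ≤ n := Nat.cast_nonneg n
    have h1 : 2 / (2 * ((n + 1 : ℕ) : ℝ) + 1) ≤ Real.log (((n : ℝ) + 2) / (n + 1)) := by
      have h2 : ((n : ℝ) + 2) / (n + 1) = 1 + 1 / ((n : ℝ) + 1) := by field_simp; ring
      have h3 := Real.le_log_one_add_of_nonneg (x := 1 / ((n : ℝ) + 1)) (by positivity)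
      rw [h2]
      refine le_trans (le_of_eq ?_) h3
      push_cast
      field_simp
      ring
    have h2 : Real.exp (2 / (2 * ((n + 1 : ℕ) : ℝ) + 1)) ≤ ((n : ℝ) + 2) / (n + 1) := by
      refine (Real.exp_le_exp.2 h1).trans (le_of_eq (Real.exp_log (by positivity)))
    calc eO (n + 1) * Real.exp (2 / (2 * ((n + 1 : ℕ) : ℝ) + 1))
        ≤ (Real.exp 2 * (n + 1)) * (((n : ℝ) + 2) / (n + 1)) :=
          mul_le_mul ih h2 (Real.exp_pos _).le (by positivity)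
      _ = Real.exp 2 * (((n + 1 : ℕ) : ℝ) + 1) := by
          push_cast
          field_simp
          ring

lemma u_nonneg {p : ℝ} (hp : 2 ≤ p) : 0 ≤ 1 - 2 / p := Pool.Agent.Q182.BA.u_nonneg hp

/-- `exp (2 u) ≤ p - 1` -/
lemma exp_le_p {p : ℝ} (hp : 2 ≤ p) : Real.exp (2 * (1 - 2 / p)) ≤ p - 1 := by
  have h0 : (0 : ℝ) ≤ 1 - 2 / p := u_nonneg hp
  have h1 : 1 - 2 / p < 1 := Pool.Agent.Q182.BA.u_lt hp
  have h2 := Pool.Agent.Q182.BA.two_le_log h0 h1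
  have hp0 : p ≠ 0 := by linarith
  have h3 : (1 + (1 - 2 / p)) / (1 - (1 - 2 / p)) = p - 1 := by
    field_simp
    ring
  rw [h3] at h2
  exact h2

lemma eO_conj {N : ℕ} (hN : 1 ≤ N) {p : ℝ} (hp : 2 ≤ p) :
    eO N ^ (1 - 2 / p) ≤ (N : ℝ) ^ (1 - 2 / p) * (p - 1) := by
  obtain ⟨k, rfl⟩ : ∃ k, N = k + 1 := ⟨N - 1, by omega⟩
  have h0 := u_nonneg hp
  have hk : (0 : ℝ) ≤ ((k + 1 : ℕ) : ℝ) := Nat.cast_nonneg _
  calc eO (k + 1) ^ (1 - 2 / p) ≤ (Real.exp 2 * ((k + 1 : ℕ) : ℝ)) ^ (1 - 2 / p) := by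
        refine Real.rpow_le_rpow (eO_pos _).le ?_ h0
        have := eO_le k
        push_cast
        exact this
    _ = Real.exp (2 * (1 - 2 / p)) * ((k + 1 : ℕ) : ℝ) ^ (1 - 2 / p) := by
        rw [Real.mul_rpow (Real.exp_pos 2).le hk, ← Real.exp_mul]
    _ ≤ (p - 1) * ((k + 1 : ℕ) : ℝ) ^ (1 - 2 / p) :=
        mul_le_mul_of_nonneg_right (exp_le_p hp) (by positivity)
    _ = _ := mul_comm _ _

lemma eO_poch {N n : ℕ} (hN : N ≤ n) {p : ℝ} (hp : 2 ≤ p) :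
    eO N ^ (1 - 2 / p) ≤ Pool.Agent.Y282.RB.Cn p n :=
  Pool.Agent.Q182.BA.h3 n p (eO N) hp (one_le_eO N) (eO_mono hN)

/-! ### The operator -/

section
variable (hK : ∀ b N : ℕ, 1 ≤ b → 1 ≤ N → 1 + ∫ v in (0 : ℝ)..1, |qq b N v| / v ≤ eO N)
  (o1 : S_O1) (o2 : S_O2) (d3 : S_D3)

include hK o1 o2 in
theorem hop (b N : ℕ) (hb : 1 ≤ b) (hN : 1 ≤ N) : Op (AO (qq b N)) (eO N) := by
  obtain ⟨c, _, hc⟩ := qq_le b N hb
  refine o2 (qq b N) c (eO N) (cont_qq b N) hc (hK b N hb hN) ?_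
  exact o1 (qq b N) c (cont_qq b N) hc (fun lam h0 _ => Pool.Agent.Q190.BA.a5 b N lam h0.le)

lemma bm (f : 𝓢(ℂ, ℂ)) : BM f := by
  obtain ⟨C, hC⟩ := f.decay 0 0
  refine ⟨f.continuous.measurable, C, fun z => ?_⟩
  have := hC.2 z
  simpa using this

include hK o1 o2 d3 in
/-- the frequency `b + 2 N`: outside of discs -/
theorem lpN (b N : ℕ) (hb : 1 ≤ b) (hN : 1 ≤ N) (f : 𝓢(ℂ, ℂ)) (hf : Cls ((b : ℤ) + 2 * N) f) (p : ℝ) (hp : 2 ≤ p)
    (R : ℝ) : eLpNorm (Tn N f) (ENNReal.ofReal p) (volume.restrict {z : ℂ | R < ‖z‖}) ≤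
      ENNReal.ofReal (eO N ^ (1 - 2 / p)) * eLpNorm f (ENNReal.ofReal p) (volume.restrict {z : ℂ | R < ‖z‖}) := by
  refine le_trans (le_of_eq ?_) (ext_bound (qq b N) (eO N) (one_le_eO N) (hop hK o1 o2 b N hb hN) p hp f (bm f) R)
  refine eLpNorm_congr_norm_ae ?_
  refine ae_restrict_of_ae ?_
  have h0 : ∀ᵐ z : ℂ, z ≠ 0 := by
    rw [ae_iff]
    simp
  filter_upwards [h0] with z hz
  rw [d3 N b hb f hf z hz, norm_mul, norm_pow, Pool.Agent.Q276.BA.D5.norm_conj_div hz, one_pow, one_mul]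

lemma cls_zero {k : ℤ} (hk : k ≠ 0) {f : ℂ → ℂ} (hf : Cls k f) : f 0 = 0 := by
  -- an element of the circle with `a ^ k ≠ 1`
  by_contra h
  obtain ⟨a, ha, hak⟩ : ∃ a : ℂ, ‖a‖ = 1 ∧ a ^ k ≠ 1 := by
    refine ⟨Complex.exp ((1 : ℝ) * Complex.I), Complex.norm_exp_ofReal_mul_I 1, fun h1 => ?_⟩
    rw [← Complex.exp_int_mul, Complex.exp_eq_one_iff] at h1
    obtain ⟨l, hl⟩ := h1
    have h2 : (k : ℂ) = l * (2 * Real.pi) := by
      have hI : Complex.I ≠ 0 := Complex.I_ne_zero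
      have h3 : (k : ℂ) * Complex.I = (l * (2 * Real.pi)) * Complex.I := by
        rw [Complex.ofReal_one, one_mul] at hl
        rw [hl]
        ring
      exact mul_right_cancel₀ hI h3
    have h4 : (k : ℝ) = l * (2 * Real.pi) := by exact_mod_cast h2
    have hl0 : l ≠ 0 := by
      rintro rfl
      apply hk
      have : (k : ℝ) = 0 := by rw [h4]; simp
      exact_mod_cast this
    have hirr := irrational_pi
    apply hirr
    refine ⟨(k : ℚ) / (2 * l), ?_⟩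
    push_cast
    rw [h4]
    have : (l : ℝ) ≠ 0 := by exact_mod_cast hl0
    field_simp
  have h1 := hf a 0 ha
  rw [mul_zero] at h1
  have h2 : (a ^ k - 1) * f 0 = 0 := by
    rw [sub_mul, one_mul, ← h1, sub_self]
  rcases mul_eq_zero.1 h2 with h3 | h3
  · exact hak (sub_eq_zero.1 h3)
  · exact h h3

include hK o1 o2 d3 in
/-- the frequency `b + 2 N`: bounded functions -/
theorem supN (b N : ℕ) (hb : 1 ≤ b) (hN : 1 ≤ N) (f : 𝓢(ℂ, ℂ)) (hf : Cls ((b : ℤ) + 2 * N) f) (z : ℂ) (B : ℝ)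
    (hB : ∀ w : ℂ, ‖z‖ ≤ ‖w‖ → ‖f w‖ ≤ B) : ‖Tn N f z‖ ≤ eO N * B := by
  rcases eq_or_ne z 0 with rfl | hz
  · have h1 := Pool.Agent.Q277.BA.c2 N _ f hf
    have h2 : ((b : ℤ) + 2 * N) - 2 * N = b := by ring
    rw [h2] at h1
    have h3 : (b : ℤ) ≠ 0 := by omega
    rw [cls_zero h3 h1, norm_zero]
    exact mul_nonneg (eO_pos N).le ((norm_nonneg _).trans (hB 0 le_rfl))
  · rw [d3 N b hb f hf z hz, norm_mul, norm_pow, Pool.Agent.Q276.BA.D5.norm_conj_div hz, one_pow, one_mul]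
    have hS : MeasurableSet {w : ℂ | ‖z‖ ≤ ‖w‖} := measurableSet_le measurable_const measurable_norm
    obtain ⟨g, hg⟩ : ∃ g : ℂ → ℂ, g = ({w : ℂ | ‖z‖ ≤ ‖w‖}).indicator f := ⟨_, rfl⟩
    have hgm : Measurable g := by
      rw [hg]
      exact f.continuous.measurable.indicator hS
    have hB0 : 0 ≤ B := (norm_nonneg _).trans (hB z le_rfl)
    have hgB : ∀ w, ‖g w‖ ≤ B := by
      intro w
      rw [hg]
      by_cases hw : w ∈ {w : ℂ | ‖z‖ ≤ ‖w‖}
      · rw [indicator_of_mem hw]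
        exact hB w hw
      · rw [indicator_of_notMem hw, norm_zero]
        exact hB0
    have he : AO (qq b N) f z = AO (qq b N) g z := by
      unfold AO
      have hz1 : z ∈ {w : ℂ | ‖z‖ ≤ ‖w‖} := le_refl ‖z‖
      have h1 : g z = f z := by rw [hg, indicator_of_mem hz1]
      rw [h1]
      congr 1
      refine intervalIntegral.integral_congr_ae ?_
      rw [uIoc_of_le zero_le_one]
      refine Eventually.of_forall fun v hv => ?_
      have h2 : ((((Real.sqrt v)⁻¹ : ℝ) : ℂ) * z) ∈ {w : ℂ | ‖z‖ ≤ ‖w‖} := by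
        have h3 : 0 < Real.sqrt v := Real.sqrt_pos.2 hv.1
        have h4 : Real.sqrt v ≤ 1 := (Real.sqrt_le_sqrt hv.2).trans_eq Real.sqrt_one
        have h5 : 1 ≤ (Real.sqrt v)⁻¹ := (one_le_inv₀ h3).2 h4
        show ‖z‖ ≤ ‖(((Real.sqrt v)⁻¹ : ℝ) : ℂ) * z‖
        rw [norm_mul, Complex.norm_real, Real.norm_of_nonneg (by positivity)]
        nlinarith [norm_nonneg z]
      rw [hg, indicator_of_mem h2]
    rw [he]
    exact (hop hK o1 o2 b N hb hN).linf g hgm B hgB z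

open Pool.Agent.TH55.PowA in
/-- on the frequency `n + k` the power `T ^ n` is `T ^ k` with a reflection -/
lemma refl_up (n k : ℕ) (f : 𝓢(ℂ, ℂ)) (hf : Cls ((n : ℤ) + k) f) (z : ℂ) :
    Tn n f z = Tn k f (starRingEnd ℂ z) := by
  have h := Q78.AF.T_refl (n : ℤ) (n + k : ℤ) hf z
  rw [add_sub_cancel_left] at h
  have e : ∀ (j : ℕ) (w : ℂ), Tn j f w = T (fun ξ => bs ξ ^ j) f w := fun _ _ => rfl
  rw [e, e]
  simpa using h

lemma norm_cj (P : ℝ≥0∞) (g : ℂ → ℂ) :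
    eLpNorm (fun z => g (starRingEnd ℂ z)) P volume = eLpNorm g P volume := by
  have h := Complex.conjLIE.measurePreserving
  have h2 := Complex.conjLIE.toHomeomorph.measurableEmbedding.eLpNorm_map_measure
    (p := P) (μ := volume) (g := g)
  have h3 : Measure.map Complex.conjLIE.toHomeomorph (volume : Measure ℂ) = volume := h.map_eq
  rw [h3] at h2
  exact h2.symm

/-- composition with the conjugation, outside of discs -/
lemma conj_ext (P : ℝ≥0∞) (g : ℂ → ℂ) (R : ℝ) :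
    eLpNorm (fun z => g (starRingEnd ℂ z)) P (volume.restrict {z : ℂ | R < ‖z‖}) =
      eLpNorm g P (volume.restrict {z : ℂ | R < ‖z‖}) := by
  have hS : MeasurableSet {z : ℂ | R < ‖z‖} := measurableSet_lt measurable_const measurable_norm
  rw [← eLpNorm_indicator_eq_eLpNorm_restrict hS, ← eLpNorm_indicator_eq_eLpNorm_restrict hS,
    ← norm_cj P (({z : ℂ | R < ‖z‖}).indicator g)]
  congr 1
  funext z
  by_cases hz : R < ‖z‖
  · have h1 : z ∈ {z : ℂ | R < ‖z‖} := hz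
    have h2 : starRingEnd ℂ z ∈ {z : ℂ | R < ‖z‖} := by
      show R < ‖starRingEnd ℂ z‖
      rw [RCLike.norm_conj]
      exact hz
    rw [indicator_of_mem h1, indicator_of_mem h2]
  · have h1 : z ∉ {z : ℂ | R < ‖z‖} := hz
    have h2 : starRingEnd ℂ z ∉ {z : ℂ | R < ‖z‖} := by
      show ¬ R < ‖starRingEnd ℂ z‖
      rw [RCLike.norm_conj]
      exact hz
    rw [indicator_of_notMem h1, indicator_of_notMem h2]

include hK o1 o2 d3 in
/-- all frequencies `m > n`, `m ≠ 2 n` -/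
theorem modes (n : ℕ) (hn : 1 ≤ n) (m : ℤ) (hm : (n : ℤ) < m) (h2 : m ≠ 2 * n) (f : 𝓢(ℂ, ℂ)) (hf : Cls m f) :
    (∀ p : ℝ, 2 ≤ p → ∀ R : ℝ, eLpNorm (Tn n f) (ENNReal.ofReal p) (volume.restrict {z : ℂ | R < ‖z‖}) ≤
      ENNReal.ofReal (eO (min n (m - n).toNat) ^ (1 - 2 / p)) *
        eLpNorm f (ENNReal.ofReal p) (volume.restrict {z : ℂ | R < ‖z‖})) ∧
    ∀ (z : ℂ) (B : ℝ), (∀ w : ℂ, ‖z‖ ≤ ‖w‖ → ‖f w‖ ≤ B) → ‖Tn n f z‖ ≤ eO (min n (m - n).toNat) * B := by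
  rcases lt_or_gt_of_ne h2 with h | h
  · -- `n < m < 2 n`
    obtain ⟨N, hN⟩ : ∃ N : ℕ, m = n + N := ⟨(m - n).toNat, by omega⟩
    subst hN
    have hN1 : 1 ≤ N := by omega
    have hNn : N < n := by omega
    have e1 : min n (((n : ℤ) + N - n).toNat) = N := by omega
    rw [e1]
    obtain ⟨b, hb⟩ : ∃ b : ℕ, b = n - N := ⟨_, rfl⟩
    have hb1 : 1 ≤ b := by omega
    have hf' : Cls ((b : ℤ) + 2 * N) f := by
      have : (b : ℤ) + 2 * N = n + N := by omega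
      rw [this]
      exact hf
    have hr : ∀ z, Tn n f z = Tn N f (starRingEnd ℂ z) := fun z => refl_up n N f hf z
    refine ⟨fun p hp R => ?_, fun z B hB => ?_⟩
    · have h3 : (Tn n f) = fun z => Tn N f (starRingEnd ℂ z) := funext hr
      rw [h3, conj_ext]
      exact lpN hK o1 o2 d3 b N hb1 hN1 f hf' p hp R
    · rw [hr]
      refine supN hK o1 o2 d3 b N hb1 hN1 f hf' _ B fun w hw => hB w ?_
      rwa [RCLike.norm_conj] at hw
  · -- `m > 2 n`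
    obtain ⟨b, hb⟩ : ∃ b : ℕ, m = b + 2 * n := ⟨(m - 2 * n).toNat, by omega⟩
    subst hb
    have hb1 : 1 ≤ b := by omega
    have e1 : min n (((b : ℤ) + 2 * n - n).toNat) = n := by omega
    rw [e1]
    exact ⟨fun p hp R => lpN hK o1 o2 d3 b n hb1 hn f hf p hp R,
      fun z B hB => supN hK o1 o2 d3 b n hb1 hn f hf z B hB⟩

end

end Pool.Agent.Q78.BB
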