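import Pool.Agent.Q78.BB.B

/-! Project BB: assembly, third part -/

set_option autoImplicit false

open MeasureTheory Set Filter Topology
open scoped BigOperators ENNReal SchwartzMap

namespace Pool.Agent.Q78.BB

open Pool.Agent.Y282.RB (Tn)
open Pool.Agent.Q276.BA (cc pp qq BM Op Cls eO)

lemma poch_eq (n : ℕ) (p : ℝ) :
    (ascPochhammer ℝ n).eval (1 - 1 / p) / (ascPochhammer ℝ n).eval (1 / p) = Pool.Agent.Y282.RB.Cn p n := by
  have h : ∀ x : ℝ, (ascPochhammer ℝ n).eval x = ∏ j ∈ Finset.range n, (x + j) := by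
    intro x
    induction n with
    | zero => simp
    | succ n ih => rw [ascPochhammer_succ_eval, ih, Finset.prod_range_succ]
  rw [h, h, ← Finset.prod_div_distrib]
  unfold Pool.Agent.Y282.RB.Cn
  refine Finset.prod_congr rfl fun j _ => ?_
  congr 1
  · ring
  · ring

lemma Cn_mono {N n : ℕ} (hN : N ≤ n) {p : ℝ} (hp : 2 ≤ p) :
    Pool.Agent.Y282.RB.Cn p N ≤ Pool.Agent.Y282.RB.Cn p n := by
  have hp0 : 0 < p := by linarith
  have h2 : 1 / p ≤ 1 / 2 := one_div_le_one_div_of_le (by norm_num) hp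
  have h3 : 0 < 1 / p := by positivity
  have h0 : ∀ j : ℕ, 1 ≤ ((j : ℝ) + 1 - 1 / p) / ((j : ℝ) + 1 / p) := by
    intro j
    have hj : (0 : ℝ) ≤ j := Nat.cast_nonneg j
    rw [one_le_div (by linarith)]
    linarith
  have hm : Monotone (fun k : ℕ => Pool.Agent.Y282.RB.Cn p k) := by
    refine monotone_nat_of_le_succ fun k => ?_
    unfold Pool.Agent.Y282.RB.Cn
    rw [Finset.prod_range_succ]
    refine le_mul_of_one_le_right ?_ (h0 k)
    exact Finset.prod_nonneg fun j _ => zero_le_one.trans (h0 j)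
  exact hm hN

end Pool.Agent.Q78.BB
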