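import Pool.Agent.Q276.BA.Stm

/-!
# Project BB (helper78): powers of the Beurling transform on single angular frequencies `m > n`, `m ≠ 2 n`

With the kernels `qq b N` of project BA (helper276) and `b ≥ 1`: if `f` has the frequency `b + 2 N`, then
`T ^ N f z = (conj z / z) ^ N (f z + ∫_0^1 qq b N v f (z / √v) dv / v)`. This operator is an isometry of `L²`, and on bounded
functions its norm is at most `1 + ∫_0^1 |qq b N v| dv / v ≤ eO N`. Interpolation (`S_G` of BA) gives the bound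
`(eO N) ^ (1 - 2 / p)` on `L^p`. A frequency `m` with `n < m < 2 n` is reduced to `N = m - n` by
`T ^ n f z = T ^ (m - n) f (conj z)`, `b = 2 n - m`; for `m > 2 n` one has `N = n`, `b = m - 2 n`.

All formulas and inequalities below have been checked numerically.
-/

set_option autoImplicit false

open MeasureTheory Set Filter Topology
open scoped BigOperators ENNReal SchwartzMap

namespace Pool.Agent.Q78.BB

open Pool.Agent.Y282.RB (Tn)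
open Pool.Agent.Q276.BA (cc pp qq BM Op Cls eO)

/-! ### Part K : the kernel -/

/-- the moment `∫_0^1 (1 - v) v ^ (-3/4) q(v) ^ 2 dv` after the substitution `v = r ^ 4` -/
noncomputable def Ep (b N : ℕ) : ℝ :=
  4 * ∫ r in (0 : ℝ)..1, (1 - r ^ 4) * r ^ (4 * b) * (pp b N (r ^ 4)) ^ 2

/-- the moment `∫_0^1 (1 - v) v ^ (-5/4) q(v) ^ 2 dv` after the substitution `v = r ^ 4` (`b ≥ 1`) -/
noncomputable def Em (b N : ℕ) : ℝ :=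
  4 * ∫ r in (0 : ℝ)..1, (1 - r ^ 4) * r ^ (4 * b - 2) * (pp b N (r ^ 4)) ^ 2

/-- `(1/4)_j / j!` -/
noncomputable def aa (j : ℕ) : ℝ := ∏ i ∈ Finset.range j, (((i : ℝ) + 1 / 4) / ((i : ℝ) + 1))

/-- `(3/4)_m / (m - 1)!` -/
noncomputable def dd (m : ℕ) : ℝ := (∏ i ∈ Finset.range m, ((i : ℝ) + 3 / 4)) / ((m - 1).factorial : ℝ)

/-- `(j + 2)_N / (j + 5/4)_N` -/
noncomputable def rr (N j : ℕ) : ℝ := ∏ i ∈ Finset.range N, (((j : ℝ) + 2 + i) / ((j : ℝ) + 5 / 4 + i))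

/-- `∑_{j < N} a_j d_{N-j} r_j` -/
noncomputable def SS (N : ℕ) : ℝ := ∑ j ∈ Finset.range N, aa j * dd (N - j) * rr N j

/-- Write `H(x) = ∏_{s<N} (x - s) / ∏_{l<N} (x + b + l + 1)`. The theorem `Pool.Agent.Q190.BA.rat` says
`1 + ∑_{l<N} cc b N l / (x + b + l + 1) = H(x)` (denominators `≠ 0`). Since `4 ∫_0^1 r ^ (4 k) dr = 1 / (k + 1/4)`, one factor
`pp` expanded gives `Ep b N = ∑_j c_j (H(j - 3/4) - H(j + 1/4))`, `c_j = cc b N j` of sign `(-1)^(N+j)`. Here `H(j - 3/4)` has the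
sign `(-1)^(N-j)` and `H(j + 1/4)` the opposite sign, so all terms are positive:
`c_j H(j - 3/4) = a_j d_{N-j} ∏_{i<N} (b+j+1+i)/(b+j+1/4+i)`, where the product decreases in `b` (so it is at most its value
`rr N j` at `b = 1`), and `- c_j H(j + 1/4) = ((1/4)_{j+1}/j!) ((3/4)_{N-1-j}/(N-1-j)!) ∏_{i<N} (b+j+1+i)/(b+j+5/4+i)`, the last
product being at most `1`; `∑_j ((1/4)_{j+1}/j!) ((3/4)_{N-1-j}/(N-1-j)!) = N/4` by Chu-Vandermonde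
(`(1/4)_{j+1} = (1/4) (5/4)_j` and `∑_{j+m=K} (5/4)_j (3/4)_m/(j! m!) = (2)_K/K! = K + 1`; prove this convolution by induction,
or for rising factorials in general). -/
def S_K1 : Prop := ∀ b N : ℕ, 1 ≤ b → 1 ≤ N → Ep b N ≤ SS N + N / 4

/-- As `S_K1`: `4 ∫_0^1 r ^ (4 k - 2) dr = 1 / (k - 1/4)`, so `Em b N = ∑_j c_j (H(j - 5/4) - H(j - 1/4))`. Now
`c_j H(j - 1/4) ≥ 0` for all `j`, and `c_j H(j - 5/4) ≤ 0` for `j ≥ 1`, so `Em b N ≤ c_0 H(-5/4) =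
N ∏_{i<N} ((b+1+i)/(1+i)) ((i+5/4)/(b+i-1/4)) ≤ N ∏_{i<N} ((2+i)/(1+i)) ((i+5/4)/(i+3/4))` (the product decreases in `b`)
`= N (N+1) ∏_{i<N} (i+5/4)/(i+3/4)`, and `((i+5/4)/(i+3/4))² ≤ (2i+3)/(2i+1)`. -/
def S_K2 : Prop := ∀ b N : ℕ, 1 ≤ b → 1 ≤ N → Em b N ≤ N * (N + 1) * Real.sqrt (2 * N + 1)

/-- `(1 + 3/(4x))^4 ≤ ((x+7/8)/(x-1/8))^3` for `x ≥ 3/4` (a polynomial inequality), so
`dd m = (3/4) ∏_{i=1}^{m-1} (1 + 3/(4i)) ≤ (3/4) ((m-1/8)/(7/8))^(3/4) ≤ 0.83 (m-1/8)^(3/4)` for `m ≥ 1` and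
`rr N j ≤ ((N+j+9/8)/(j+9/8))^(3/4)`. By Bernoulli `1 + 3/(4x) ≥ (1+1/x)^(3/4)`, so for `j ≥ 1`
`aa j = (1/4) ∏_{i=1}^{j-1} (i+1/4)/(i+1) ≤ (1/4) ((5/4)/(j+1/4))^(3/4) ≤ 0.296 (j+1/4)^(-3/4)`, and `aa 0 = 1`. Moreover
`(N-j-1/8)(N+j+9/8) ≤ N²+N`, `(j+1/4)(j+9/8) ≥ (j+0.6)²` for `j ≥ 1`, and `∑_{j≥1} (j+0.6)^(-3/2) ≤ 2/√1.1 ≤ 1.91` by
`(j+0.6)^(-3/2) ≤ 2 ((j+0.1)^(-1/2) - (j+1.1)^(-1/2))`. In all: `0.83 (8/9)^(3/4) + 0.83 * 0.296 * 1.91 ≤ 1.24`. -/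
def S_K3 : Prop := ∀ N : ℕ, 1 ≤ N → SS N ≤ 1.3 * ((N : ℝ) ^ 2 + N) ^ (3 / 4 : ℝ)

/-- Substitute `v = r ^ 4` (`dv / v = 4 dr / r`): the left side is `4 ∫ (1 - r^4) r^(2b-1) |pp b N (r^4)| dr`. Cauchy-Schwarz
with the weight `α r² + β` (`α, β > 0`): the square is at most `(α Ep + β Em) * 4 ∫_0^1 dr/(α r² + β)` (use `1 - r^4 ≤ 1` in the
second factor), and `∫_0^1 dr/(α r² + β) ≤ (π/2)/√(α β)`. With `α = √(Em/Ep)`, `β = 1/α` this is `4 π √(Ep Em)`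
(`Ep, Em > 0`, or treat the case `Ep Em = 0` separately: then `pp b N = 0` on `[0,1]`; or let `α` vary). -/
def S_K4 : Prop := ∀ b N : ℕ, 1 ≤ b → 1 ≤ N →
  ∫ v in (0 : ℝ)..1, (1 - v) * (|qq b N v| / v) ≤ Real.sqrt (4 * Real.pi * Real.sqrt (Ep b N * Em b N))

/-- Cauchy-Schwarz with the weight `W(v) = δ + (1 - v) + (b/N) (1 - v)²/v`, `δ = 1/(N+b)`. By `Pool.Agent.Q190.BA.a3'`, `a4'`
`∫ q² = N(N+b)` and `∫ (1-v) q² = N(N+b)/(2N+b)`; in the same way (`rat` at `x = j - 1`, where `H(j-1) = 0` for `1 ≤ j`, `j ≤ N`,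
and `c_0 H(-1) = N(N+b)/b`) `∫ (1-v) q²/v = N(N+b)/b`, so `∫ q² (1-v)²/v = N(N+b) 2N/(b(2N+b))` and `∫ q² W ≤ 4 N`. With
`t = 1 - v`: `∫_0^1 dv/W ≤ ∫_0^1 dt/(δ + t + (b/N) t²)`; if `b ≤ N` this is at most `log(1 + 1/δ) ≤ log(2N+1)`; if `b > N` split at
`t = N/b`: `log(1 + N(N+b)/b) + 1 ≤ log(2N+1) + 1`. -/
def S_K5 : Prop := ∀ b N : ℕ, 1 ≤ b → 1 ≤ N →
  ∫ v in (0 : ℝ)..1, |qq b N v| ≤ 2 * Real.sqrt (N * (1 + Real.log (2 * N + 1)))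

/-- Numerical: the sides are (`SS N` is rational: 5.566, 8.490, 11.825, 15.532, 19.582, 23.950, 28.617)
`N = 3`: 20.285 / 21.470; `4`: 25.469 / 28.571; `5`: 30.533 / 35.680; `6`: 35.512 / 42.795; `7`: 40.426 / 49.912;
`8`: 45.286 / 57.031; `9`: 50.103 / 64.152. Use `Pool.Agent.Q276.BA.S_H4`-like bounds or `exp` of rationals for `eO`
(`eO N = exp (2 ∑_{j<N} 1/(2j+1))`, `eO (N+1) ≥ eO N * (1 + 2/(2N+1) + 2/(2N+1)²)`). -/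
def S_K6 : Prop := ∀ N : ℕ, 3 ≤ N → N ≤ 9 →
  1 + Real.sqrt (4 * Real.pi * Real.sqrt ((SS N + N / 4) * (N * (N + 1) * Real.sqrt (2 * N + 1)))) +
    2 * Real.sqrt (N * (1 + Real.log (2 * N + 1))) ≤ eO N

/-- Numerical: `N = 10`: 57.6 / 60.396, then the difference grows (the left side is about `4.13 N`). For `n ≥ 2` one has
`eO n ≥ 2.876 (2 n + 1)` (inside `Pool.Agent.Q182.BA.Num`, `h4`). -/
def S_K7 : Prop := ∀ N : ℕ, 10 ≤ N →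
  1 + Real.sqrt (4 * Real.pi * Real.sqrt ((1.3 * ((N : ℝ) ^ 2 + N) ^ (3 / 4 : ℝ) + N / 4) *
    (N * (N + 1) * Real.sqrt (2 * N + 1)))) + 2 * Real.sqrt (N * (1 + Real.log (2 * N + 1))) ≤ eO N

/-- `pp b 1 v = -(b+1)`: the integral is `2 + 2/b ≤ 4`. `pp b 2 v = (b+2) ((b+1) (1-v) - 2 v)` for `N = 2`: the integral of the
absolute value is at most `(b+2) ((b+1) * 4/(b(b+2)) + 4/(b+2)) = 4(b+1)/b + 4 ≤ 12`. `eO 1 = e²`, `eO 2 = e^(8/3) ≥ 14`. -/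
def S_K8 : Prop := ∀ b N : ℕ, 1 ≤ b → 1 ≤ N → N ≤ 2 →
  1 + ∫ v in (0 : ℝ)..1, |qq b N v| / v ≤ eO N

/-! ### Part O : the operator -/

/-- `h + ∫_0^1 q(v) h(z / √v) dv / v` -/
noncomputable def AO (q : ℝ → ℝ) (h : ℂ → ℂ) (z : ℂ) : ℂ :=
  h z + ∫ v in (0 : ℝ)..1, ((q v / v : ℝ) : ℂ) * h ((((Real.sqrt v)⁻¹ : ℝ) : ℂ) * z)

/-- The analogue of `S_E` (proved by helper121 in `Pool.Agent.Q121.BA.E1`, theorem `Pool.Agent.Q121.BA.E.e`) for the adjoint. If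
`h ∈ L²`, put `K h z = ∫_0^1 (q(v)/v) h(v^(-1/2) z) dv` and `C(λ) = ∫ h(√λ z) conj(h z)` for `0 < λ < 1`; Fubini (the norm of
`h(v^(-1/2) ·)` is `√v ‖h‖`, and `|q(v)|/v ≤ C/√v`) gives `∫ |K h|² = ∫∫ (q(v)/v) (q(w)/w) ⟨h(v^(-1/2) ·), h(w^(-1/2) ·)⟩`; for
`v = λ w`, `λ < 1`, the inner product is `v conj(C(λ))`, and `dv = w dλ`: this half is
`∫_0^1 conj(C(λ)) (∫_0^1 q(λ w) q(w) dw) dλ = -∫ conj(C(λ)) q(λ) dλ = -⟨K h, h⟩` (as `⟨h(λ^(-1/2) ·), h⟩ = λ conj(C(λ))`), the other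
half is its conjugate, so `‖h + K h‖² = ‖h‖²`. -/
def S_O1 : Prop := ∀ (q : ℝ → ℝ) (c : ℝ), Continuous q → (∀ v, 0 ≤ v → v ≤ 1 → |q v| ≤ c * Real.sqrt v) →
  (∀ lam : ℝ, 0 < lam → lam < 1 → ∫ w in (0 : ℝ)..1, q (lam * w) * q w = - q lam) →
  ∀ h : ℂ → ℂ, BM h → ∫⁻ z : ℂ, ‖AO q h z‖ₑ ^ 2 ≤ ∫⁻ z : ℂ, ‖h z‖ₑ ^ 2

/-- The remaining properties of `Op` (linearity, measurability, the bound for bounded functions, dominated convergence);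
`|q v| / v ≤ c / √v` is integrable. -/
def S_O2 : Prop := ∀ (q : ℝ → ℝ) (c M : ℝ), Continuous q → (∀ v, 0 ≤ v → v ≤ 1 → |q v| ≤ c * Real.sqrt v) →
  1 + ∫ v in (0 : ℝ)..1, |q v| / v ≤ M →
  (∀ h : ℂ → ℂ, BM h → ∫⁻ z : ℂ, ‖AO q h z‖ₑ ^ 2 ≤ ∫⁻ z : ℂ, ‖h z‖ₑ ^ 2) → Op (AO q) M

/-! ### Part D : the formula -/

/-- The formula for the frequencies `b + 2 N`, `b ≥ 1`. By duality from the formula `S_D` on the frequency `-b`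
(`Pool.Agent.Q276.BA.Fin.fD`, as `S_C1` is `Pool.Agent.Q277.BA.c1`, `S_C2` is `c2`). Let `φ` be smooth with compact support in
`(0, ∞)` and `h z = (conj z) ^ b φ(|z|²)` (a Schwartz function of frequency `-b`; compose `exists_sch` of `Q276.BA.D3` with the
conjugation). Then `∫ T^N f h = ∫ f T^N h`, `T^N f` has frequency `b`, `T^N h = (conj z/z)^N (conj z)^b (φ(x) + ∫_0^1 v^b p(v)
φ(v x) dv)` with `x = |z|²`, `p = pp b N`. In polar coordinates (`int_normSq` of `Q276.BA.D3`), with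
`G(r) = T^N f(r)`, `F(r) = f(r)` for `r ≥ 0`: `∫_0^∞ G(√x) x^(b/2) φ(x) dx = ∫_0^∞ F(√x) x^(b/2) (φ(x) + ∫_0^1 v^b p(v) φ(v x) dv) dx
= ∫_0^∞ φ(y) y^(b/2) (F(√y) + ∫_0^1 v^(b/2) p(v) F(√(y/v)) dv/v) dy` (Fubini and `y = v x`; `F` is bounded, and `v^(b/2) |p(v)|/v ≤
c/√v`). So `G(√y) = F(√y) + ∫_0^1 q(v) F(√(y/v)) dv/v` for all `y > 0` by continuity (`dbr` of `Q276.BA.D4`), and both sides of the
formula have the frequency `b`. -/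
def S_D3 : Prop := ∀ (N b : ℕ), 1 ≤ b → ∀ f : 𝓢(ℂ, ℂ), Cls ((b : ℤ) + 2 * N) f → ∀ z : ℂ, z ≠ 0 →
  Tn N f z = (starRingEnd ℂ z / z) ^ N * AO (qq b N) f z

end Pool.Agent.Q78.BB
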